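import Pool.Agent.Work.MP_11e589_an.Game

set_option autoImplicit false

open scoped ENNReal

universe u

namespace Pool.Agent.Results.MP_11e589_an.Diameter

/-- The Banach-Mazur distance: the infimum of `‖T‖ ‖T⁻¹‖` over all isomorphisms `T` onto. -/
noncomputable def bm (Y Z : Type u) [NormedAddCommGroup Y] [NormedSpace ℝ Y]
    [NormedAddCommGroup Z] [NormedSpace ℝ Z] : ℝ≥0∞ :=
  ⨅ T : Y ≃L[ℝ] Z, ‖(T : Y →L[ℝ] Z)‖ₑ * ‖(T.symm : Z →L[ℝ] Y)‖ₑ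

/-- The diameter `D(X)`: the supremum of the distances of Banach spaces isomorphic to `X`. -/
noncomputable def diam (X : Type u) [NormedAddCommGroup X] [NormedSpace ℝ X] : ℝ≥0∞ :=
  ⨆ (Y : Type u) (_ : NormedAddCommGroup Y) (_ : NormedSpace ℝ Y) (_ : CompleteSpace Y)
    (Z : Type u) (_ : NormedAddCommGroup Z) (_ : NormedSpace ℝ Z) (_ : CompleteSpace Z)
    (_ : Nonempty (X ≃L[ℝ] Y)) (_ : Nonempty (X ≃L[ℝ] Z)), bm Y Z

/-- Weakly compactly generated: the closed linear span of a weakly compact set is everything. -/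
def IsWCG (X : Type u) [NormedAddCommGroup X] [NormedSpace ℝ X] : Prop :=
  ∃ K : Set X, IsCompact ((toWeakSpace ℝ X) '' K) ∧
    (Submodule.span ℝ K).topologicalClosure = ⊤

theorem result (X : Type u) [NormedAddCommGroup X] [NormedSpace ℝ X] [CompleteSpace X]
    (hns : ¬ TopologicalSpace.SeparableSpace X) (hX : IsWCG X) :
    diam X = ⊤ ∧
    ∀ C : ℝ, ∃ (Y : Type u) (_ : NormedAddCommGroup Y) (_ : NormedSpace ℝ Y) (_ : CompleteSpace Y)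
      (Z : Type u) (_ : NormedAddCommGroup Z) (_ : NormedSpace ℝ Z) (_ : CompleteSpace Z),
      Nonempty (X ≃L[ℝ] Y) ∧ Nonempty (X ≃L[ℝ] Z) ∧
      ∀ (T : Y →L[ℝ] Z) (b : ℝ), 0 ≤ b → (∀ y, ‖y‖ ≤ b * ‖T y‖) → C < ‖T‖ * b := by
  obtain ⟨K, hK, hd⟩ := hX
  have hd' : Dense ((Submodule.span ℝ K : Submodule ℝ X) : Set X) :=
    Submodule.dense_iff_topologicalClosure_eq_top.2 hd
  have key : ∀ C : ℝ, ∃ (Y : Type u) (_ : NormedAddCommGroup Y) (_ : NormedSpace ℝ Y)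
      (_ : CompleteSpace Y)
      (Z : Type u) (_ : NormedAddCommGroup Z) (_ : NormedSpace ℝ Z) (_ : CompleteSpace Z),
      Nonempty (X ≃L[ℝ] Y) ∧ Nonempty (X ≃L[ℝ] Z) ∧
      ∀ (T : Y →L[ℝ] Z) (b : ℝ), 0 ≤ b → (∀ y, ‖y‖ ≤ b * ‖T y‖) → C < ‖T‖ * b := by
    intro C
    obtain ⟨Y, i1, i2, Z, j1, j2, ⟨eY⟩, ⟨eZ⟩, h⟩ :=
      Pool.Agent.Work.MP_11e589_an.main_emb hns hK hd' C
    exact ⟨Y, i1, i2, eY.symm.isUniformEmbedding.completeSpace_congr eY.symm.surjective |>.2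
      inferInstance, Z, j1, j2,
      eZ.symm.isUniformEmbedding.completeSpace_congr eZ.symm.surjective |>.2 inferInstance,
      ⟨eY⟩, ⟨eZ⟩, h⟩
  refine ⟨ENNReal.eq_top_of_forall_nnreal_le (fun r => ?_), key⟩
  obtain ⟨Y, i1, i2, i3, Z, j1, j2, j3, hY, hZ, h⟩ := key r
  have h1 : (r : ℝ≥0∞) ≤ bm Y Z := by
    refine le_iInf (fun T => ?_)
    have h2 := h (T : Y →L[ℝ] Z) ‖(T.symm : Z →L[ℝ] Y)‖ (norm_nonneg _) (fun y => by
      simpa using (T.symm : Z →L[ℝ] Y).le_opNorm (T y))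
    rw [enorm_eq_nnnorm, enorm_eq_nnnorm, ← ENNReal.coe_mul, ENNReal.coe_le_coe]
    exact_mod_cast h2.le
  refine h1.trans ?_
  exact le_iSup_of_le Y (le_iSup_of_le i1 (le_iSup_of_le i2 (le_iSup_of_le i3
    (le_iSup_of_le Z (le_iSup_of_le j1 (le_iSup_of_le j2 (le_iSup_of_le j3
      (le_iSup_of_le hY (le_iSup_of_le hZ le_rfl)))))))))

end Pool.Agent.Results.MP_11e589_an.Diameter
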